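import Pool.Agent.Q16.BrUF

/-!
# Unitary F-matrices and diagonal braiding matrices: every such braided category is unitary
-/

open CategoryTheory CategoryTheory.Limits MonoidalCategory Pool.Agent.TH22.UF

universe v u

/-- Let `C` be a braided fusion category over `ℂ`, with representatives `S` of the simple objects.
(1) If `C` has a gauge in which all the F-matrices are unitary and all the braiding matrices are
diagonal, then `C` is unitary as a braided fusion category: it is equivalent, by a `ℂ`-linear
braided monoidal equivalence, to a braided C*-tensor category with unitary associator, unitary unit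
constraints and unitary braiding. (2) More precisely `C` is unitary as a braided fusion category if
and only if it has a gauge in which all the F-matrices are unitary, whatever the braiding matrices
of this gauge are. -/
theorem Pool.Agent.Results.MP_7857a6_al.BraidedUnitary.result
    (C : Type u) [Category.{v} C] [Abelian C] [Linear ℂ C] [HasFiniteBiproducts C]
    [MonoidalCategory C] [MonoidalPreadditive C] [MonoidalLinear ℂ C] [RigidCategory C]
    [BraidedCategory C]
    (hC : IsFusionCategory C) (r : ℕ) (S : Fin r → C) (hS : IsSimpleList S) :
    (∀ g : Gauge S, g.UnitaryF → Q16.BrUF.DiagonalR g → IsBraidedUnitary C) ∧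
      ((∃ g : Gauge S, g.UnitaryF) ↔ IsBraidedUnitary C) := by
  refine ⟨fun g hg _ => Q16.BrUF.isBraidedUnitary_of_unitaryF hC hS g hg,
    fun ⟨g, hg⟩ => Q16.BrUF.isBraidedUnitary_of_unitaryF hC hS g hg, fun h => ?_⟩
  obtain ⟨D, h1, h2, h3, h4, h5, s, F, h6, h7, h8, h9, -⟩ := h
  exact exists_gauge_of_isUnitary hC hS ⟨D, h1, h2, h3, h4, s, F, h6.toMonoidal, h7, h8, h9⟩
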